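import Pool.Agent.Helper80.HG.St

/-!
# Project HG, module LN: local variation of functions of `H`
-/

set_option autoImplicit false

namespace Pool.Agent.Helper18.HG

open Pool.Agent.Helper80.HG Filter Topology Asymptotics
open scoped commutatorElement

theorem hLN : StLN := by
  intro H hH Λ hΛ hΛtop
  obtain ⟨f', hf'H, hf'⟩ := hH.deriv _ (hH.inv Λ hΛ)
  have h0 : Tendsto (fun x => (Λ x)⁻¹) atTop (𝓝 0) := tendsto_inv_atTop_zero.comp hΛtop
  have h1 := hH.dlim _ (hH.inv Λ hΛ) 0 f' h0 hf'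
  have h2 : ∀ᶠ x in atTop, ‖f' x‖ ≤ 1 := by
    have h3 : Tendsto (fun x => ‖f' x‖) atTop (𝓝 0) := by simpa using h1.norm
    exact h3.eventually_le_const one_pos
  obtain ⟨M, hM⟩ := eventually_atTop.1 (hf'.and (h2.and (hΛtop.eventually_ge_atTop 1)))
  refine ⟨M, fun z ξ hz hξ ht => ?_⟩
  have hmv : ‖(Λ ξ)⁻¹ - (Λ z)⁻¹‖ ≤ 1 * ‖ξ - z‖ := by
    refine Convex.norm_image_sub_le_of_norm_hasDerivWithin_le (f := fun x => (Λ x)⁻¹) (f' := f')
      (s := Set.Ici M) (fun x hx => (hM x hx).1.hasDerivWithinAt) (fun x hx => (hM x hx).2.1)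
      (convex_Ici M) hz hξ
  have ha : 1 ≤ Λ z := (hM z hz).2.2
  have hb : 1 ≤ Λ ξ := (hM ξ hξ).2.2
  set a := Λ z with ha'
  set b := Λ ξ with hb'
  set t := |ξ - z| with ht'
  have ht0 : 0 ≤ t := abs_nonneg _
  rw [one_mul, Real.norm_eq_abs, Real.norm_eq_abs] at hmv
  have ha0 : 0 < a := by linarith
  have hb0 : 0 < b := by linarith
  have h5 : b - a = -(a * b * (b⁻¹ - a⁻¹)) := by field_simp; ring
  have h6 : |b - a| ≤ a * b * t := by
    rw [h5, abs_neg, abs_mul, abs_of_pos (mul_pos ha0 hb0)]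
    exact mul_le_mul_of_nonneg_left hmv (mul_pos ha0 hb0).le
  have h7 : t * a ≤ 1 / 2 := by
    have : t * a ≤ t * a ^ 2 := by
      apply mul_le_mul_of_nonneg_left _ ht0
      nlinarith
    linarith
  have h8 : b ≤ 2 * a := by
    have h9 : b - a ≤ a * b * t := (le_abs_self _).trans h6
    have h10 : a * b * t ≤ b * (1 / 2) := by
      have : a * b * t = b * (t * a) := by ring
      rw [this]
      exact mul_le_mul_of_nonneg_left h7 hb0.le
    linarith
  calc |b - a| ≤ a * b * t := h6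
    _ ≤ a * (2 * a) * t := by
        apply mul_le_mul_of_nonneg_right _ ht0
        exact mul_le_mul_of_nonneg_left h8 ha0.le
    _ = 2 * (t * a ^ 2) := by ring

end Pool.Agent.Helper18.HG
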