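import Pool.Agent.Helper80.HG.StL

/-!
# Project HG, part L, module RO: the logarithm of an element is comparable to an element
-/

set_option autoImplicit false

namespace Pool.Agent.Helper18.HG

open Pool.Agent.Helper80.HG Filter Topology

private theorem ev_mono_RO (F F' : ℝ → ℝ) (h : ∀ᶠ x in atTop, HasDerivAt F (F' x) x)
    (h' : ∀ᶠ x in atTop, 0 ≤ F' x) : ∃ C : ℝ, ∀ᶠ x in atTop, C ≤ F x := by
  obtain ⟨a, ha⟩ := eventually_atTop.1 (h.and h')
  refine ⟨F a, (eventually_ge_atTop a).mono fun x hx => ?_⟩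
  have hm : MonotoneOn F (Set.Ici a) := by
    refine monotoneOn_of_deriv_nonneg (convex_Ici a)
      (fun y hy => (ha y hy).1.continuousAt.continuousWithinAt)
      (fun y hy => (ha y (interior_subset hy)).1.differentiableAt.differentiableWithinAt)
      (fun y hy => ?_)
    rw [(ha y (interior_subset hy)).1.deriv]
    exact (ha y (interior_subset hy)).2
  exact hm (Set.mem_Ici.2 le_rfl) hx hx

private theorem log_der_RO (g g' : ℝ → ℝ) (hg : Tendsto g atTop atTop)
    (h : ∀ᶠ x in atTop, HasDerivAt g (g' x) x) :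
    ∀ᶠ x in atTop, HasDerivAt (fun x => Real.log (g x)) (g' x * (g x)⁻¹) x := by
  filter_upwards [h, hg.eventually_gt_atTop 0] with x hx h0
  have := hx.log h0.ne'
  rwa [div_eq_mul_inv] at this

theorem hRO : StRO := by
  intro hHL M hM K hKM hK u hu hutop husm g hg hgtop hbig
  obtain ⟨g', hg'K, hg'⟩ := hK.deriv g hg
  obtain ⟨u', hu'K, hu'⟩ := hK.deriv u hu
  have hMK : HK M := hM.toHK
  set A : ℝ → ℝ := fun x => Real.log (g x) with hA
  set B : ℝ → ℝ := fun x => Real.log (u x) with hB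
  set A' : ℝ → ℝ := fun x => g' x * (g x)⁻¹ with hA'
  set B' : ℝ → ℝ := fun x => u' x * (u x)⁻¹ with hB'
  have hAM : A ∈ M := hM.log g (hKM hg)
  have hBM : B ∈ M := hM.log u (hKM hu)
  have hA'K : A' ∈ K := hK.mul _ hg'K _ (hK.inv _ hg)
  have hB'K : B' ∈ K := hK.mul _ hu'K _ (hK.inv _ hu)
  have hAd : ∀ᶠ x in atTop, HasDerivAt A (A' x) x := log_der_RO g g' hgtop hg'
  have hBd : ∀ᶠ x in atTop, HasDerivAt B (B' x) x := log_der_RO u u' hutop hu'
  have hAtop : Tendsto A atTop atTop := Real.tendsto_log_atTop.comp hgtop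
  have hBtop : Tendsto B atTop atTop := Real.tendsto_log_atTop.comp hutop
  have hA'pos : ∀ᶠ x in atTop, 0 < A' x := (hHL M hMK).2 A hAM A' hAtop hAd
  have hB'pos : ∀ᶠ x in atTop, 0 < B' x := (hHL M hMK).2 B hBM B' hBtop hBd
  set ρ : ℝ → ℝ := fun x => A' x * (B' x)⁻¹ with hρ
  have hρK : ρ ∈ K := hK.mul _ hA'K _ (hK.inv _ hB'K)
  have hρpos : ∀ᶠ x in atTop, 0 < ρ x := by
    filter_upwards [hA'pos, hB'pos] with x h1 h2
    exact mul_pos h1 (inv_pos.2 h2)
  have hρB : ∀ᶠ x in atTop, ρ x * B' x = A' x := by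
    filter_upwards [hB'pos] with x h2
    show A' x * (B' x)⁻¹ * B' x = A' x
    rw [mul_assoc, inv_mul_cancel₀ h2.ne', mul_one]
  -- (0)
  have h0 : ∀ C : ℝ, ¬ ∀ᶠ x in atTop, ρ x ≤ C := by
    intro C hC
    obtain ⟨C₀, hC₀⟩ := ev_mono_RO (fun x => C * B x - A x) (fun x => C * B' x - A' x)
      (by
        filter_upwards [hAd, hBd] with x h1 h2
        exact (h2.const_mul C).sub h1)
      (by
        filter_upwards [hC, hρB, hB'pos] with x h1 h2 h3
        have := mul_le_mul_of_nonneg_right h1 h3.le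
        linarith)
    obtain ⟨k, hk⟩ := exists_nat_ge (C + 1)
    have h1 : ∀ᶠ x in atTop, (k : ℝ) * B x ≤ A x := by
      filter_upwards [hbig k, hutop.eventually_gt_atTop 0] with x h2 h3
      have h4 := Real.log_le_log (pow_pos h3 k) h2
      rwa [Real.log_pow] at h4
    obtain ⟨x, hx1, hx2, hx3⟩ := (h1.and (hC₀.and (hBtop.eventually_gt_atTop (max 0 (-C₀))))).exists
    have h5 : 0 < B x := (le_max_left _ _).trans_lt hx3
    have h6 : -C₀ < B x := (le_max_right _ _).trans_lt hx3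
    have h7 : (C + 1) * B x ≤ k * B x := mul_le_mul_of_nonneg_right hk h5.le
    linarith
  have hρtop : Tendsto ρ atTop atTop := by
    rcases (hHL K hK).1 ρ hρK with ⟨c, hc⟩ | h | h
    · exact absurd (hc.eventually_le_const (lt_add_one c)) (h0 _)
    · exact h
    · exact absurd (h.eventually_le_atBot 0) (h0 _)
  -- (1)
  obtain ⟨ρ', hρ'K, hρ'⟩ := hK.deriv ρ hρK
  have hρ'pos : ∀ᶠ x in atTop, 0 < ρ' x := (hHL K hK).2 ρ hρK ρ' hρtop hρ'
  obtain ⟨C₁, hC₁⟩ := ev_mono_RO (fun x => ρ x * B x - A x) (fun x => (ρ' x * B x + ρ x * B' x) - A' x)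
    (by
      filter_upwards [hρ', hAd, hBd] with x h1 h2 h3
      exact (h1.mul h3).sub h2)
    (by
      filter_upwards [hρ'pos, hρB, hBtop.eventually_gt_atTop 0] with x h1 h2 h3
      have := mul_pos h1 h3
      linarith)
  obtain ⟨m, hm⟩ := husm ρ hρK hρtop
  have hAρ : ∀ᶠ x in atTop, A x ≤ ρ x ^ (m + 2) := by
    filter_upwards [hC₁, hm, hρtop.eventually_ge_atTop (|C₁| + 1), hutop.eventually_gt_atTop 0]
      with x h1 h2 h3 h4
    have hr1 : 1 ≤ ρ x := by
      have := abs_nonneg C₁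
      linarith
    have h5 : B x ≤ ρ x ^ m := by
      have h6 : B x ≤ u x := by
        show Real.log (u x) ≤ u x
        have := Real.log_le_sub_one_of_pos h4
        linarith
      exact h6.trans h2
    have h7 : ρ x * B x ≤ ρ x * ρ x ^ m := mul_le_mul_of_nonneg_left h5 (by linarith)
    have h8 : 1 ≤ ρ x * ρ x ^ m := by
      have := one_le_pow₀ hr1 (n := m + 1)
      rw [pow_succ] at this
      linarith
    have h9 : (ρ x * ρ x ^ m) * 1 + |C₁| ≤ (ρ x * ρ x ^ m) * ρ x := by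
      have h10 : |C₁| ≤ (ρ x * ρ x ^ m) * |C₁| := le_mul_of_one_le_left (abs_nonneg _) h8
      have h11 : (ρ x * ρ x ^ m) * (|C₁| + 1) ≤ (ρ x * ρ x ^ m) * ρ x :=
        mul_le_mul_of_nonneg_left h3 (by linarith)
      linarith
    have h12 : -C₁ ≤ |C₁| := neg_le_abs C₁
    have h13 : (ρ x * ρ x ^ m) * ρ x = ρ x ^ (m + 2) := by ring
    linarith
  -- (2)
  have hAinv : (fun x => (A x)⁻¹) ∈ M := hM.inv _ hAM
  set q : ℝ → ℝ := fun x => ρ x * ((A x)⁻¹ * (A x)⁻¹) with hq
  have hqM : q ∈ M := hM.mul _ (hKM hρK) _ (hM.mul _ hAinv _ hAinv)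
  have h1q : (fun x => (1 : ℝ) + (-1) * q x) ∈ M :=
    hM.add _ (hM.const 1) _ (hM.mul _ (hM.const (-1)) _ hqM)
  have hq1 : ∀ᶠ x in atTop, q x ≤ 1 := by
    rcases hM.sign _ h1q with h | h | h
    · filter_upwards [h] with x hx
      linarith
    · filter_upwards [h] with x hx
      linarith
    · exfalso
      obtain ⟨C₂, hC₂⟩ := ev_mono_RO (fun x => -(A x)⁻¹ - B x)
        (fun x => -(-A' x / A x ^ 2) - B' x)
        (by
          filter_upwards [hAd, hBd, hAtop.eventually_gt_atTop 0] with x h1 h2 h3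
          exact (h1.inv h3.ne').neg.sub h2)
        (by
          filter_upwards [h, hρB, hB'pos, hAtop.eventually_gt_atTop 0] with x h1 h2 h3 h4
          have h5 : -(-A' x / A x ^ 2) = q x * B' x := by
            rw [← h2]
            show -(-(ρ x * B' x) / A x ^ 2) = ρ x * ((A x)⁻¹ * (A x)⁻¹) * B' x
            field_simp
          rw [h5]
          have h6 : 1 * B' x ≤ q x * B' x := mul_le_mul_of_nonneg_right (by linarith) h3.le
          linarith)
      obtain ⟨x, hx1, hx2, hx3⟩ := (hC₂.and ((hAtop.eventually_gt_atTop 0).and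
        (hBtop.eventually_gt_atTop (-C₂)))).exists
      have : 0 < (A x)⁻¹ := inv_pos.2 hx2
      linarith
  have hρA : ∀ᶠ x in atTop, ρ x ≤ A x ^ (m + 2) := by
    filter_upwards [hq1, hAtop.eventually_ge_atTop 1] with x h1 h2
    have h3 : 0 < A x := by linarith
    have h4 : ρ x = q x * A x ^ 2 := by
      show ρ x = ρ x * ((A x)⁻¹ * (A x)⁻¹) * A x ^ 2
      field_simp
    have h5 : q x * A x ^ 2 ≤ 1 * A x ^ 2 := mul_le_mul_of_nonneg_right h1 (by positivity)
    have h6 : A x ^ 2 ≤ A x ^ (m + 2) := pow_le_pow_right₀ h2 (by omega)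
    linarith
  exact ⟨ρ, hρK, hρtop, m + 2, hρA, hAρ⟩

end Pool.Agent.Helper18.HG
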